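import Pool.Agent.W566.MZ.Stmts

/-! # MP_aa8fd2_nt, PART K8 (generation) -/

set_option autoImplicit false

namespace Pool.Agent.W561.MZK8

open NumberField IsDedekindDomain MZ

theorem stmK8 : StmFrat → StmK1 → StmK2 → StmK3 → StmK8 := by
  intro hF h1 h2 h3 L Ω _ _ _ _ _ hreal h2r φ c σ hφ hc hσ
  have : IsGalois L (Linf L Ω) := h1.2 L L Ω inferInstance
  have : CharZero L := inferInstance
  have : CharZero (Linf L Ω) := charZero_of_injective_algebraMap (algebraMap L _).injective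
  apply hF Gal((Linf L Ω)/L) (h2 L Ω) _ c σ
  intro χ hχo hχc hχσ
  by_contra hne
  -- an element outside the kernel
  have hg0 : ∃ g₀, χ g₀ ≠ 1 := by
    by_contra h
    push Not at h
    exact hne (MonoidHom.ext fun g => by rw [h g]; rfl)
  obtain ⟨g₀, hg₀⟩ := hg0
  have hcl : IsClosed (χ.ker : Set Gal((Linf L Ω)/L)) :=
    Subgroup.isClosed_of_isOpen _ hχo
  have hfix : (IntermediateField.fixedField χ.ker).fixingSubgroup = χ.ker :=
    InfiniteGalois.fixingSubgroup_fixedField ⟨χ.ker, hcl⟩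
  have hz : ∃ z ∈ IntermediateField.fixedField χ.ker, g₀ z ≠ z := by
    by_contra h
    push Not at h
    apply hg₀
    have : g₀ ∈ χ.ker := by
      rw [← hfix, IntermediateField.mem_fixingSubgroup_iff]
      exact h
    exact this
  obtain ⟨z, hz, hgz⟩ := hz
  have hzf : ∀ g, χ g = 1 → g z = z := by
    intro g hg
    rw [IntermediateField.mem_fixedField_iff] at hz
    exact hz g hg
  have htwo : ∀ m : Multiplicative (ZMod 2), m ≠ 1 → ∀ m', m' ≠ 1 → m * m' = 1 := by decide
  have hinv : ∀ m : Multiplicative (ZMod 2), m⁻¹ = m := by decide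
  set y : Linf L Ω := z - g₀ z with hy
  have hy0 : y ≠ 0 := fun h => hgz (sub_eq_zero.mp h).symm
  have hyfix : ∀ g, χ g = 1 → g y = y := by
    intro g hg
    have e1 : g z = z := hzf g hg
    have e2 : (g₀⁻¹ * g * g₀) z = z := hzf _ (by
      rw [map_mul, map_mul, hg, mul_one, map_inv, inv_mul_cancel])
    have e3 : g (g₀ z) = g₀ z := by
      have : g₀ ((g₀⁻¹ * g * g₀) z) = g (g₀ z) := by
        rw [← AlgEquiv.mul_apply, ← mul_assoc, ← mul_assoc, mul_inv_cancel, one_mul]
        rfl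
      rw [← this, e2]
    rw [hy, map_sub, e1, e3]
  have hyneg : ∀ g, χ g ≠ 1 → g y = - y := by
    intro g hg
    have e1 : (g₀⁻¹ * g) z = z := hzf _ (by
      rw [map_mul, map_inv, hinv]; exact htwo _ hg₀ _ hg)
    have e2 : g z = g₀ z := by
      have : g₀ ((g₀⁻¹ * g) z) = g z := by
        rw [← AlgEquiv.mul_apply, ← mul_assoc, mul_inv_cancel, one_mul]
      rw [← this, e1]
    have e3 : (g * g₀) z = z := hzf _ (by rw [map_mul]; exact htwo _ hg _ hg₀)
    have e4 : g (g₀ z) = z := e3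
    rw [hy, map_sub, e2, e4]; ring
  have hysq : ∀ g : Gal((Linf L Ω)/L), g (y ^ 2) = y ^ 2 := by
    intro g
    rw [map_pow]
    by_cases hg : χ g = 1
    · rw [hyfix g hg]
    · rw [hyneg g hg]; ring
  obtain ⟨a, ha⟩ : ∃ a : L, algebraMap L (Linf L Ω) a = y ^ 2 :=
    (InfiniteGalois.mem_range_algebraMap_iff_fixed _).mpr hysq
  have ha0 : a ≠ 0 := by
    rintro rfl
    rw [map_zero] at ha
    exact hy0 (pow_eq_zero_iff (two_ne_zero)|>.mp ha.symm)
  have hev : MZ294.EvenOut2 L a := by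
    refine h3 L Ω a (y : Ω) ha0 y.2 ?_
    have := congrArg (fun t : Linf L Ω => (t : Ω)) ha
    simpa using this.symm
  have hpos : ∀ f : L →+* ℝ, 0 < f a := by
    intro f
    set τ : L →+* ℂ := Complex.ofRealHom.comp f with hτ
    have e1 : c τ y = y := hyfix _ (hχc τ)
    have e2 : (starRingEnd ℂ) (φ τ y) = φ τ (c τ y) := by
      have := (hc τ).eq y
      exact this.symm
    rw [e1] at e2
    obtain ⟨r, hr⟩ := Complex.conj_eq_iff_real.mp e2
    have e3 : φ τ (y ^ 2) = ((f a : ℝ) : ℂ) := by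
      rw [← ha]
      have := congrArg (fun t : L →+* ℂ => t a) (hφ τ)
      simpa [hτ] using this
    rw [map_pow, hr] at e3
    have e4 : r ^ 2 = f a := by exact_mod_cast e3
    have hr0 : r ≠ 0 := by
      rintro rfl
      rw [Complex.ofReal_zero] at hr
      exact hy0 ((map_eq_zero (φ τ)).mp hr)
    rw [← e4]; positivity
  rcases h2r a ha0 hpos hev with ⟨b, hb⟩ | ⟨b, hb⟩
  · have e1 : y ^ 2 = (algebraMap L (Linf L Ω) b) ^ 2 := by
      rw [← ha, hb, map_mul, sq]
    have e2 : g₀ y = y := by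
      rcases sq_eq_sq_iff_eq_or_eq_neg.mp e1 with h | h
      · rw [h, AlgEquiv.commutes]
      · rw [h, map_neg, AlgEquiv.commutes]
    have e3 := hyneg g₀ hg₀
    rw [e2] at e3
    exact hy0 (self_eq_neg.mp e3)
  · set r : Linf L Ω := algebraMap L (Linf L Ω) b / y with hr
    have e1 : r ^ 2 = 2 := by
      rw [hr, div_pow, ← ha, sq, ← map_mul, ← hb, map_mul, map_ofNat]
      have : algebraMap L (Linf L Ω) a ≠ 0 := by
        rw [ha]; exact pow_ne_zero _ hy0
      field_simp
    apply hσ r e1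
    rw [hr, map_div₀, AlgEquiv.commutes, hyfix σ hχσ]

end Pool.Agent.W561.MZK8
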